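import Pool.Agent.Helper236.Normal

namespace Pool.Agent.Results.MP_24547c_co.Main

open Pool.Agent.Helper236

/-- `M` is a `k`-block over the finite field `F`: a finite simple matroid, representable over `F`,
whose critical exponent is larger than `k`. -/
def IsBlock (F : Type) [Field F] (k : ℕ) {α : Type} (M : Matroid α) : Prop :=
  M.Finite ∧ IsSimple M ∧ Representable F M ∧ (k : ℕ∞) < critExp M (Nat.card F)

/-- `M` is a tangential `k`-block over `F`: it is a `k`-block and no proper minor of `M` is a
(simple) `k`-block. -/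
def IsTangentialBlock (F : Type) [Field F] (k : ℕ) {α : Type} (M : Matroid α) : Prop :=
  IsBlock F k M ∧ ∀ N : Matroid α, N.IsMinor M → N ≠ M → ¬ IsBlock F k N

/-- `M` is supersolvable: there are modular flats `G 0 ⊆ G 1 ⊆ ... ⊆ G r` with `r (G i) = i`,
where `r` is the rank of `M`. -/
def IsSupersolvable {α : Type} (M : Matroid α) : Prop :=
  ∃ G : ℕ → Set α, (∀ i ≤ rk M M.E, IsModularFlat M (G i) ∧ rk M (G i) = i) ∧
    ∀ i < rk M M.E, G i ⊆ G (i + 1)

theorem result (F : Type) [Field F] [Finite F] (k : ℕ) (_hk : 1 ≤ k) {α : Type} (M : Matroid α)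
    (hM : IsTangentialBlock F k M) (hss : IsSupersolvable M) :
    IsNormal (Nat.card F) k M := by
  obtain ⟨⟨hfin, hs, ⟨n, v, hv⟩, hblock⟩, htan⟩ := hM
  have hrep : Rep F M v := hv
  have hblock' := (lt_critExp_iff hrep k).1 hblock
  obtain ⟨G, hG, -⟩ := hss
  have hpos : 1 ≤ rk M M.E := by
    obtain ⟨e, he, -⟩ := hblock' 0
    by_contra hlt
    have h0 : rk M M.E = 0 := by omega
    rw [hrep.rk_eq Set.Subset.rfl] at h0
    have hfd : FiniteDimensional F (Submodule.span F (v '' M.E)) :=
      FiniteDimensional.span_of_finite F (M.ground_finite.image v)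
    have h1 := Submodule.finrank_eq_zero.1 h0
    have h2 : v e ∈ Submodule.span F (v '' M.E) :=
      Submodule.subset_span (Set.mem_image_of_mem v he)
    rw [h1, Submodule.mem_bot] at h2
    exact hrep.ne_zero hs he h2
  have hH : IsModularHyperplane M (G (rk M M.E - 1)) := by
    obtain ⟨h1, h2⟩ := hG (rk M M.E - 1) (by omega)
    exact ⟨h1, by omega⟩
  refine isNormal_of_modular hrep hs hblock' ?_ hH
  intro e he
  have h2 : M.delete {e} = (M.contract ∅).delete {e} := by
    rw [Matroid.contract_empty]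
  have hminor : (M.delete {e}).IsMinor M := ⟨∅, {e}, h2⟩
  have hne : M.delete {e} ≠ M := by
    intro heq
    have : e ∈ (M.delete {e}).E := by
      rw [heq]
      exact he
    exact this.2 rfl
  have h3 := htan _ hminor hne
  have hfin' : (M.delete {e}).Finite := inferInstance
  have hs' : IsSimple (M.delete {e}) := by
    intro x hx y hy
    rw [Matroid.delete_indep_iff]
    refine ⟨hs x hx.1 y hy.1, ?_⟩
    rw [Set.disjoint_right]
    rintro z rfl hz
    rcases hz with rfl | rfl
    · exact hx.2 rfl
    · exact hy.2 rfl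
  have hrep' : Rep F (M.delete {e}) v := by
    intro I hI
    rw [Matroid.delete_indep_iff, hrep I (hI.trans Set.sdiff_subset), and_iff_left]
    rw [Set.disjoint_left]
    intro x hx
    exact (hI hx).2
  have h4 : critExp (M.delete {e}) (Nat.card F) ≤ k := by
    by_contra hgt
    exact h3 ⟨hfin', hs', ⟨n, v, hrep'⟩, not_le.1 hgt⟩
  rw [critExp_le_iff hrep' k] at h4
  obtain ⟨f, hf⟩ := h4
  exact ⟨f, fun x hx hxe => hf x ⟨hx, hxe⟩⟩

end Pool.Agent.Results.MP_24547c_co.Main
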